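import Pool.Agent.Helper59.EV.Chain
import Pool.Agent.Helper59.GR.One
import Pool.Agent.Helper54.NB.Str

/-! PLANKS (`PLK1`), interface between the rounding of the canonical form (helper19), the count (helper32) and the
comparison of times (helper62). Coordinates: `0 = t`, `1 = R`, `2 = z`. -/

set_option autoImplicit false

namespace Pool.Agent.Helper32.PLK

open Finset Filter Topology Matrix Pool.Agent.Helper69.RK Pool.Agent.Helper31.EC Pool.Agent.Helper31.EC.Sp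
open Pool.Agent.Helper40.EL Pool.Agent.Helper3.LF Pool.Agent.Helper89.LX Pool.Agent.Helper89.LS
open Pool.Agent.Helper48.NS (GG)

noncomputable section

/-- a LITERAL FORM of degree one over the base of a system of lines in space: a literal variable `V` of an extension,
whose value is a form; it is a function of the line and of the point, bounded at the point, and the point fills it -/
structure PV {S : Sp} (s : Sys S 2) (W : Sp) (p : Pj W S)
    (V : ∀ k, (W.F k).Ω → Matrix (Mon (2 + 1) 1) (Mon (2 + 1) 1) ℝ) (K : ℕ → ℝ) (C : ℝ) : Prop where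
  bd : Bdd V
  leL : io V ≤ p.map (s.xi 1)
  leP : io V ≤ p.map (s.P.dg 1 ⊔ s.T)
  sub : W.Sub K
  cpd : ∀ᶠ k in UF, ∀ w, (W.F k).μ w ≠ 0 → Cpd (2 ^ (C * (W.F k).n)) (V k w)
  typ : Typ (fun k w => phi (W.dl 1 k) (V k w) (ptf s k (p.π k w)) ≤ K k)
  vol : 2 - ul (fun k => ∑ w, (W.F k).μ w *
    (Real.logb 2 (GG (W.dl 1 k) (V k w) (ptf s k (p.π k w))) / (2 * (W.F k).n))) ≤ h (p.map (s.P.dg 1)) (io V ⊔ p.map s.T)

/-- the direction of the coordinate `i` -/
def ev (i : Fin (2 + 1)) : Mon (2 + 1) 1 → ℝ := dd i 0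

/-- size of the form in the direction `z` -/
def zz (A : Matrix (Mon (2 + 1) 1) (Mon (2 + 1) 1) ℝ) : ℝ := ev 2 ⬝ᵥ (A *ᵥ ev 2)

/-- mixed entry -/
def rz (A : Matrix (Mon (2 + 1) 1) (Mon (2 + 1) 1) ℝ) : ℝ := ev 1 ⬝ᵥ (A *ᵥ ev 2)

/-- size of the projection of the form to the coordinate `R`: least value of the form on `dR = 1`, `dt = 0` -/
def sg (A : Matrix (Mon (2 + 1) 1) (Mon (2 + 1) 1) ℝ) : ℝ := ev 1 ⬝ᵥ (A *ᵥ ev 1) - rz A ^ 2 / zz A

/-- level of the extent of `R` -/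
def lamR (A : Matrix (Mon (2 + 1) 1) (Mon (2 + 1) 1) ℝ) (n : ℝ) : ℝ := Real.logb 2 (sg A) / (2 * n)

/-- intercept of the coordinate `i` -/
def cf {S : Sp} (s : Sys S 2) (i : Fin 2) : QS S := QS.mk (TR.cor s.a i)

/-- velocity of the coordinate `i` -/
def vl {S : Sp} (s : Sys S 2) (i : Fin 2) : QS S := QS.mk (TR.cor s.x i)

/-- [CMP] (helper62) count of the digits of `R` at any other height -/
def CMP : Prop := ∀ (S : Sp) (s : Sys S 2) (W : Sp) (p : Pj W S)
  (V : ∀ k, (W.F k).Ω → Matrix (Mon (2 + 1) 1) (Mon (2 + 1) 1) ℝ) (K : ℕ → ℝ) (C : ℝ), PV s W p V K C →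
  ∀ (E : ∀ k, (W.F k).Ω → Prop) (hE : 0 < ul (W.pr E)) (e' : ℝ), 0 ≤ e' → e' ≤ 1 →
  ∀ (D : Sp) (q : Pj D (W.rest E)) (τ : QS D),
    h (QS.dg (q.qs (QS.rest E hE (p.qs (cf s 0))) + τ * q.qs (QS.rest E hE (p.qs (vl s 0)))) e')
      (q.map (restL E hE (io V)) ⊔ QS.dg τ 1) ≤
    ul (fun k => ∑ w, ((W.rest E).F k).μ w * max 0 (e' - lamR (V k w) (W.F k).n))

end

end Pool.Agent.Helper32.PLK
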