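import Pool.Agent.Helper32.PLK.Frm

/-! PLANKS (`PLK1`): the event on which `R` is not known over the form; the numbers there. -/

set_option autoImplicit false

namespace Pool.Agent.Helper32.PLK

open Finset Filter Topology Pool.Agent.Helper69.RK Pool.Agent.Helper31.EC
open Pool.Agent.Helper31.EC.Sp Pool.Agent.Helper31.EC.QS
open Pool.Agent.Helper19.PLK (Rows mn mn_UB sum_mu_le sum_mu_const)
open Pool.Agent.Helper62.PLK (vec1_dg vec2_dg two_times)

noncomputable section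

variable {W : Sp} {t cR XR cz Xz : TR W} {al : ℕ → Type}

/-- means of positive parts where the function is small -/
theorem mn_max_le {E : ∀ k, (W.F k).Ω → Prop} (hE : 0 < ul (W.pr E)) {f : ∀ k, (W.F k).Ω → ℝ} {C r : ℝ}
    (hf : ∀ᶠ k in UF, ∀ ω, (W.F k).μ ω ≠ 0 → 0 ≤ f k ω ∧ f k ω ≤ C)
    (h : ∀ᶠ k in UF, ∀ w, (W.F k).μ w ≠ 0 → E k w → f k w ≤ r) :
    mn (W.rest E) (fun k w => max 0 (r - f k w)) ≤ r - mn (W.rest E) f := by
  have hU : UB (fun k => ∑ ω, ((W.rest E).F k).μ ω * f k ω) := by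
    apply mn_UB (T := W.rest E) (C := C)
    filter_upwards [hf] with k hk ω hω using hk ω ((W.F k).rest_supp (E k) ω hω).1
  unfold mn
  rw [← ul_const r, ← ul_sub (UB_const r) hU, ul_const r]
  apply le_of_eq
  apply ul_congr
  filter_upwards [h, pr_pos_ev hE] with k hk h0
  have h1 := sum_mu_const (F := (W.rest E).F k) r
  suffices h2 : ∑ w, ((W.rest E).F k).μ w * max 0 (r - f k w) =
      ∑ w, (((W.rest E).F k).μ w * r - ((W.rest E).F k).μ w * f k w) by
    rw [h2, Finset.sum_sub_distrib, h1]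
  refine Finset.sum_congr rfl fun w _ => ?_
  by_cases hw : ((W.rest E).F k).μ w = 0
  · rw [hw]
    ring
  · obtain ⟨w1, w2⟩ := (W.F k).rest_supp (E k) w hw
    rw [max_eq_right (by linarith [hk w w1 (w2 h0)])]
    ring

/-- THE CORE: an event, the equation of the plank over the form, and the numbers of `R` there -/
theorem core (D : Rows W t cR XR cz Xz al) (hv : D.Vol)
    (leP : io D.V ≤ TR.dg (cR + t * XR) 1 ⊔ TR.dg (cz + t * Xz) 1 ⊔ TR.dg t 1)
    {ρ e e' : ℝ} (hρ : 0 < ρ) (he : 0 < e) (hee : e < e') (he1 : e' < 1)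
    (hu : ∀ (E : ∀ k, (W.F k).Ω → Prop) (hE : 0 < ul (W.pr E)) (v : ℝ), 0 ≤ v → v ≤ 1 →
      h (restL E hE (TR.dg (cz + t * Xz) 1)) (restL E hE (TR.dg (cz + t * Xz) v ⊔ TR.dg (cR + t * XR) 1 ⊔
        TR.dg t 1)) ≤ (1 - ρ) * (1 - v))
    (hpos : 0 < h (TR.dg XR e ⊔ TR.dg Xz e) (TR.dg (cR + t * XR) 1 ⊔ TR.dg (cz + t * Xz) 1 ⊔ TR.dg t 1)) :
    ∃ (E : ∀ k, (W.F k).Ω → Prop) (hE : 0 < ul (W.pr E)) (α β0 β1 : QS W),
      QS.dg α 1 ≤ io D.V ∧ QS.dg β0 1 ≤ io D.V ∧ QS.dg β1 1 ≤ io D.V ∧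
      QS.mk (cz + t * Xz) = β0 + β1 * QS.mk t + α * QS.mk (cR + t * XR) ∧
      1 - e' ≤ h (restL E hE (TR.dg (cR + t * XR) 1))
        (restL E hE (io D.V) ⊔ restL E hE (TR.dg (cR + t * XR) e' ⊔ TR.dg t 1)) ∧
      ∀ (X : Sp) (q : Pj X (W.rest E)) (τ : QS X),
        h (QS.dg (q.qs (QS.rest E hE (QS.mk cR)) + τ * q.qs (QS.rest E hE (QS.mk XR))) e')
          (q.map (restL E hE (io D.V)) ⊔ QS.dg τ 1) ≤
        h (restL E hE (TR.dg (cR + t * XR) e')) (restL E hE (io D.V) ⊔ restL E hE (TR.dg t 1)) := by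
  obtain ⟨L, hL, -, hLT⟩ := exists_L D (z_sat D hv hρ hu)
  have ha := alT_dg D L hL
  obtain ⟨hb0, hb1⟩ := coef_dg D L hL hLT
  set A := alT D L hL with hA
  set m : ℝ := (e + e') / 2 with hm
  set E : ∀ k, (W.F k).Ω → Prop := fun k w => ¬ (m ≤ D.lR k w) with hEd
  have hE : 0 < ul (W.pr E) := by
    by_contra hc
    have hT : Typ (fun k w => m ≤ D.lR k w) :=
      (Sp.typ_not_of_pr hc).mono (Eventually.of_forall fun k w _ h => not_not.mp h)
    have h1 := XR_dg D m hT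
    have h2 : TR.dg XR e ≤ io D.V := (TR.dg_mono XR (by linarith)).trans h1
    have h3 : TR.dg Xz e ≤ io D.V := by
      have e1 : Xz = (Xz - A * XR) + A * XR := by ring
      have he1' : e ≤ 1 := by linarith
      have h4 : TR.dg (Xz - A * XR) e ≤ io D.V := (TR.dg_mono _ he1').trans hb1
      have h5 : TR.dg A e ≤ io D.V := (TR.dg_mono _ he1').trans ha
      rw [← dg_mk _ he1'] at h2 h4 h5 ⊢
      have h6 : (QS.mk Xz : QS W) = QS.mk (Xz - A * XR) + QS.mk A * QS.mk XR := by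
        rw [← map_mul, ← map_add, ← e1]
      rw [h6]
      exact (dg_add_le _ _ he1').trans (sup_le h4 ((dg_mul_le _ _ he1').trans (sup_le h5 h2)))
    have h4 := h_zero ((sup_le h2 h3).trans leP)
    linarith
  -- the numbers
  have hE1 : ∀ᶠ k in UF, ∀ w, (W.F k).μ w ≠ 0 → E k w → D.lR k w ≤ e' :=
    Eventually.of_forall fun k w _ hw => by
      have : ¬ (m ≤ D.lR k w) := hw
      push Not at this
      linarith
  have k1 := mn_max_le hE (r := e') D.lR_bd hE1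
  have k2 := D.ful_R_rest hv E hE
  have k3 := D.up_R_rest E hE (r := e') (by linarith) he1.le
  have k4 : h (restL E hE (TR.dg (cR + t * XR) 1)) (restL E hE (io D.V ⊔ TR.dg t 1)) =
      h (restL E hE (TR.dg (cR + t * XR) e')) (restL E hE (io D.V ⊔ TR.dg t 1)) +
      h (restL E hE (TR.dg (cR + t * XR) 1)) (restL E hE (io D.V) ⊔ restL E hE (TR.dg (cR + t * XR) e' ⊔ TR.dg t 1)) := by
    have e1 : restL E hE (TR.dg (cR + t * XR) 1) = restL E hE (TR.dg (cR + t * XR) e') ⊔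
        restL E hE (TR.dg (cR + t * XR) 1) :=
      (sup_eq_right.mpr (restL_mono E hE (TR.dg_mono _ he1.le))).symm
    have e2 : restL E hE (io D.V) ⊔ restL E hE (TR.dg (cR + t * XR) e' ⊔ TR.dg t 1) =
        restL E hE (TR.dg (cR + t * XR) e') ⊔ restL E hE (io D.V ⊔ TR.dg t 1) := by
      rw [← restL_sup, ← restL_sup]
      congr 1
      rw [sup_left_comm]
    conv_lhs => rw [e1]
    rw [h_chain, e2]
  have k5 : h (restL E hE (TR.dg (cR + t * XR) 1)) (restL E hE (io D.V) ⊔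
      restL E hE (TR.dg (cR + t * XR) e' ⊔ TR.dg t 1)) ≤ 1 - e' := by
    refine (h_anti (B := restL E hE (TR.dg (cR + t * XR) e')) ?_).trans ?_
    · exact le_sup_of_le_right (restL_mono E hE le_sup_left)
    · rw [← TR.rest_dg E hE, ← TR.rest_dg E hE]
      exact TR.h_dg_dg _ he1.le
  refine ⟨E, hE, QS.mk A, QS.mk (cz - A * cR), QS.mk (Xz - A * XR), ?_, ?_, ?_, ?_, ?_, ?_⟩
  · rw [dg_mk _ le_rfl]; exact ha
  · rw [dg_mk _ le_rfl]; exact hb0
  · rw [dg_mk _ le_rfl]; exact hb1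
  · rw [← map_mul, ← map_mul, ← map_add, ← map_add]
    congr 1
    ring
  · linarith
  · intro X q τ
    have k0 : restL E hE (io D.V) ⊔ restL E hE (TR.dg t 1) = restL E hE (io D.V ⊔ TR.dg t 1) :=
      (restL_sup E hE _ _).symm
    rw [k0]
    have k6 := (D.rest E hE).cmp (r := e') (by linarith) he1.le X q τ
    have k7 : io (S := W.rest E) D.V = restL E hE (io D.V) := (restL_io E hE D.hV).symm
    have k8 : h (QS.dg (q.qs (QS.mk (TR.rest E cR)) + τ * q.qs (QS.mk (TR.rest E XR))) e')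
        (q.map (io (S := W.rest E) D.V) ⊔ QS.dg τ 1) ≤
        mn (W.rest E) (fun k w => max 0 (e' - D.lR k w)) := k6
    rw [k7, ← QS.rest_mk E hE, ← QS.rest_mk E hE] at k8
    linarith

end

end Pool.Agent.Helper32.PLK
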