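import Pool.Agent.Helper32.PLK.Row
import Pool.Agent.Helper31.EC.Real

/-! PLANKS (`PLK1`): the equation of the plank over the form. -/

set_option autoImplicit false

namespace Pool.Agent.Helper32.PLK

open Finset Filter Topology Pool.Agent.Helper69.RK Pool.Agent.Helper31.EC
open Pool.Agent.Helper31.EC.Sp Pool.Agent.Helper31.EC.QS
open Pool.Agent.Helper19.PLK (Rows mn mn_UB sum_mu_le sum_mu_const)
open Pool.Agent.Helper62.PLK (vec1_dg vec2_dg two_times)

noncomputable section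

variable {W : Sp} {t cR XR cz Xz : TR W} {al : ℕ → Type}

/-- a saturated row is at the finest scale up to a subexponential factor -/
theorem exists_L (D : Rows W t cR XR cz Xz al) (hs : ∀ ε : ℝ, 0 < ε → Typ (fun k w => 1 - ε ≤ D.lz k w)) :
    ∃ L : ℕ → ℝ, W.Sub L ∧ (∀ k, 0 < L k) ∧ Typ (fun k w => 1 ≤ L k * (D.sz k (D.V k w) * W.dl 1 k)) := by
  obtain ⟨J, hJ, hT⟩ := Sp.typ_diag (fun j k w => 1 - 1 / ((j : ℝ) + 1) ≤ D.lz k w)
    (fun j => hs _ (by positivity))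
  refine ⟨_, Sp.Sub_diag W hJ, fun k => by positivity, hT.mono ?_⟩
  filter_upwards [D.big] with k hk w hw hE
  have h1 := le_pow_lv (W.F k).pos (hk w hw).1.2 hE
  have h2 : (2 : ℝ) ^ (1 / ((J k : ℝ) + 1) * (W.F k).n) *
      (2 ^ ((1 - 1 / ((J k : ℝ) + 1)) * (W.F k).n) * W.dl 1 k) = 1 := by
    unfold Sp.dl
    rw [← Real.rpow_add (by norm_num : (0 : ℝ) < 2), ← Real.rpow_add (by norm_num : (0 : ℝ) < 2)]
    rw [show 1 / ((J k : ℝ) + 1) * (W.F k).n + ((1 - 1 / ((J k : ℝ) + 1)) * (W.F k).n + -(1 * (W.F k).n)) = 0 by ring,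
      Real.rpow_zero]
  refine (le_of_eq h2.symm).trans ?_
  have h3 : (0 : ℝ) ≤ (2 : ℝ) ^ (1 / ((J k : ℝ) + 1) * (W.F k).n) := (Real.rpow_pos_of_pos (by norm_num) _).le
  exact mul_le_mul_of_nonneg_left (mul_le_mul_of_nonneg_right h1 (W.dl_pos 1 k).le) h3

/-- the slope of the plank -/
def alT (D : Rows W t cR XR cz Xz al) (L : ℕ → ℝ) (hL : W.Sub L) : TR W :=
  ⟨fun k w => if |D.a k (D.V k w)| ≤ D.K k * L k then D.a k (D.V k w) else 0, by
    refine ⟨fun k => D.K k * L k, Sub.mul D.hK hL, ?_⟩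
    filter_upwards [D.hK.1, hL.1] with k h1 h2 w hw
    by_cases h : |D.a k (D.V k w)| ≤ D.K k * L k
    · rw [if_pos h]
      exact h
    · rw [if_neg h, abs_zero]
      exact mul_nonneg h1 h2⟩

theorem alT_ev (D : Rows W t cR XR cz Xz al) (L : ℕ → ℝ) (hL : W.Sub L) (k : ℕ) (w : (W.F k).Ω) :
    TR.ev (alT D L hL) k w = if |D.a k (D.V k w)| ≤ D.K k * L k then D.a k (D.V k w) else 0 := rfl

/-- the slope is known over the form -/
theorem alT_dg (D : Rows W t cR XR cz Xz al) (L : ℕ → ℝ) (hL : W.Sub L) : TR.dg (alT D L hL) 1 ≤ io D.V := by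
  rw [← vec1_dg]
  refine VV.dg_le_io (TR.vec (fun _ : Fin 1 => alT D L hL)) 1 D.hV (fun _ _ => True) Typ_true (fun _ => 1)
    (W.Sub_const (by norm_num)) ?_
  refine Eventually.of_forall fun k w w' _ _ _ _ _ hX i => ?_
  show |TR.ev (alT D L hL) k w - TR.ev (alT D L hL) k w'| ≤ 1 * W.dl 1 k
  rw [alT_ev, alT_ev, hX, sub_self, abs_zero]
  exact mul_nonneg zero_le_one (W.dl_pos 1 k).le

/-- typically the slope is the one of the row -/
theorem alT_typ (D : Rows W t cR XR cz Xz al) (L : ℕ → ℝ) (hL : W.Sub L)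
    (hT : Typ (fun k w => 1 ≤ L k * (D.sz k (D.V k w) * W.dl 1 k))) :
    Typ (fun k w => TR.ev (alT D L hL) k w = D.a k (D.V k w)) := by
  refine (hT.and D.rowz).mono ?_
  filter_upwards [D.big, D.hK.1, hL.1] with k hk h1 h2 w hw hE
  obtain ⟨e1, _, ⟨_, e3⟩, _⟩ := hE
  rw [alT_ev, if_pos]
  have e4 : D.sz k (D.V k w) * |D.a k (D.V k w)| * W.dl 1 k =
    |D.a k (D.V k w)| * (D.sz k (D.V k w) * W.dl 1 k) := by ring
  rw [e4] at e3
  have e5 := mul_le_mul_of_nonneg_left e1 (abs_nonneg (D.a k (D.V k w)))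
  have e6 := mul_le_mul_of_nonneg_right e3 h2
  nlinarith

theorem dg_add_le_TR (f g : TR W) {A : W.L} (hf : TR.dg f 1 ≤ A) (hg : TR.dg g 1 ≤ A) : TR.dg (f + g) 1 ≤ A := by
  rw [← dg_mk _ le_rfl] at *
  rw [map_add]
  exact (dg_add_le _ _ le_rfl).trans (sup_le hf hg)

theorem dg_sub_mul_le (f g a : TR W) {r : ℝ} (hr : r ≤ 1) {A : W.L} (hf : TR.dg f r ≤ A) (hg : TR.dg g r ≤ A)
    (ha : TR.dg a r ≤ A) : TR.dg (f - a * g) r ≤ A := by
  rw [← dg_mk _ hr] at *
  rw [map_sub, map_mul]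
  exact (dg_sub_le _ _ hr).trans (sup_le hf ((dg_mul_le _ _ hr).trans (sup_le ha hg)))

/-- THE COEFFICIENTS of the plank are known over the form -/
theorem coef_dg (D : Rows W t cR XR cz Xz al) (L : ℕ → ℝ) (hL : W.Sub L)
    (hT : Typ (fun k w => 1 ≤ L k * (D.sz k (D.V k w) * W.dl 1 k))) :
    TR.dg (cz - alT D L hL * cR) 1 ≤ io D.V ∧ TR.dg (Xz - alT D L hL * XR) 1 ≤ io D.V := by
  have ha := alT_dg D L hL
  have hat := alT_typ D L hL hT
  set A := alT D L hL with hA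
  have hT1 : h (TR.dg t 1) (io D.V ⊔ TR.dg (cz - A * cR) 1 ⊔ TR.dg (Xz - A * XR) 1) = 1 := by
    apply le_antisymm
    · refine (h_le_H _ _).trans ?_
      rw [← dg_mk t le_rfl]
      exact H_dg_le _ zero_le_one
    · refine (le_of_eq D.ht.symm).trans (h_anti ?_)
      refine sup_le (sup_le le_sup_left ?_) ?_
      · refine dg_sub_mul_le _ _ _ le_rfl ?_ ?_ (ha.trans le_sup_left)
        · exact le_sup_of_le_right (le_sup_right.trans le_sup_left)
        · exact le_sup_of_le_right (le_sup_left.trans (le_sup_left.trans le_sup_left))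
      · refine dg_sub_mul_le _ _ _ le_rfl ?_ ?_ (ha.trans le_sup_left)
        · exact le_sup_of_le_right le_sup_right
        · exact le_sup_of_le_right (le_sup_right.trans (le_sup_left.trans le_sup_left))
  obtain ⟨K', hK', hrow⟩ := two_times t (cz - A * cR) (Xz - A * XR) D.V D.hV hT1 D.sz D.b0 D.b1 D.K D.hK (by
    refine (hat.and D.rowz).mono ?_
    filter_upwards [D.big] with k hk w hw hE
    obtain ⟨e1, e2, _, e5⟩ := hE
    refine ⟨by linarith [(hk w hw).1.2], e2, ?_⟩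
    have e6 : D.sz k (D.V k w) * (TR.ev (cz - A * cR) k w + TR.ev t k w * TR.ev (Xz - A * XR) k w -
        D.b0 k (D.V k w) - D.b1 k (D.V k w) * TR.ev t k w) =
        D.sz k (D.V k w) * (TR.ev cz k w + TR.ev t k w * TR.ev Xz k w - D.b0 k (D.V k w) -
        D.b1 k (D.V k w) * TR.ev t k w - D.a k (D.V k w) * (TR.ev cR k w + TR.ev t k w * TR.ev XR k w)) := by
      have e7 : TR.ev (cz - A * cR) k w = TR.ev cz k w - TR.ev A k w * TR.ev cR k w := rfl
      have e8 : TR.ev (Xz - A * XR) k w = TR.ev Xz k w - TR.ev A k w * TR.ev XR k w := rfl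
      rw [e7, e8, e1]
      ring
    rw [e6]
    exact e5)
  have key : ∀ (f : TR W) (b : ∀ k, al k → ℝ),
      Typ (fun k w => |D.sz k (D.V k w) * (TR.ev f k w - b k (D.V k w))| ≤ K' k) → TR.dg f 1 ≤ io D.V := by
    intro f b hf
    rw [← vec1_dg]
    refine VV.dg_le_io (TR.vec (fun _ : Fin 1 => f)) 1 D.hV _ (hf.and hT) (fun k => 2 * (K' k * L k))
      (Sub.mul (W.Sub_const (by norm_num)) (Sub.mul hK' hL)) ?_
    filter_upwards [D.big, hL.1, hK'.1] with k hk h2 h3 w w' hw hw' hE1 hE2 _ hX i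
    obtain ⟨f1, f2⟩ := hE1
    obtain ⟨f1', f2'⟩ := hE2
    rw [← hX] at f1'
    have hs : 0 < D.sz k (D.V k w) := by linarith [(hk w hw).1.2]
    have hδ := W.dl_pos 1 k
    show |TR.ev f k w - TR.ev f k w'| ≤ 2 * (K' k * L k) * W.dl 1 k
    set s := D.sz k (D.V k w)
    set x := TR.ev f k w
    set x' := TR.ev f k w'
    set β := b k (D.V k w)
    have g1 : s * |x - x'| ≤ 2 * K' k := by
      rw [← abs_of_pos hs, ← abs_mul]
      have : s * (x - x') = s * (x - β) - s * (x' - β) := by ring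
      rw [this]
      rw [abs_le] at *
      constructor <;> linarith [f1.1, f1.2, f1'.1, f1'.2]
    have g2 : |x - x'| * 1 ≤ |x - x'| * (L k * (s * W.dl 1 k)) := mul_le_mul_of_nonneg_left f2 (abs_nonneg _)
    have g3 := mul_le_mul_of_nonneg_right g1 (mul_nonneg h2 hδ.le)
    nlinarith
  refine ⟨key _ D.b0 (hrow.mono (Eventually.of_forall fun k w _ h => h.1)),
    key _ D.b1 (hrow.mono (Eventually.of_forall fun k w _ h => h.2))⟩

/-- THE VELOCITY of `R` is known over the form where the row of `R` is large -/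
theorem XR_dg (D : Rows W t cR XR cz Xz al) (v : ℝ) (hT : Typ (fun k w => v ≤ D.lR k w)) :
    TR.dg XR v ≤ io D.V := by
  obtain ⟨K', hK', hrow⟩ := two_times t cR XR D.V D.hV D.htR D.sR D.r0 D.r1 D.K D.hK (by
    refine D.rowR.mono ?_
    filter_upwards [D.big] with k hk w hw hE
    exact ⟨by linarith [(hk w hw).1.1], hE.1, hE.2.2⟩)
  rw [← vec1_dg]
  refine VV.dg_le_io (TR.vec (fun _ : Fin 1 => XR)) v D.hV _ (hrow.and hT) (fun k => 2 * K' k)
    ((W.Sub_const (by norm_num)).mul hK') ?_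
  filter_upwards [D.big, hK'.1] with k hk h3 w w' hw hw' hE1 hE2 _ hX i
  obtain ⟨⟨_, f1⟩, f2⟩ := hE1
  obtain ⟨⟨_, f1'⟩, _⟩ := hE2
  rw [← hX] at f1'
  have hs : 0 < D.sR k (D.V k w) := by linarith [(hk w hw).1.1]
  have h4 := le_pow_lv (W.F k).pos (hk w hw).1.1 f2
  show |TR.ev XR k w - TR.ev XR k w'| ≤ 2 * K' k * W.dl v k
  set s := D.sR k (D.V k w)
  set x := TR.ev XR k w
  set x' := TR.ev XR k w'
  set β := D.r1 k (D.V k w)
  have g1 : s * |x - x'| ≤ 2 * K' k := by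
    rw [← abs_of_pos hs, ← abs_mul]
    have : s * (x - x') = s * (x - β) - s * (x' - β) := by ring
    rw [this]
    rw [abs_le] at *
    constructor <;> linarith [f1.1, f1.2, f1'.1, f1'.2]
  have e3 : (2 : ℝ) ^ (v * (W.F k).n) * |x - x'| ≤ 2 * K' k := (mul_le_mul_of_nonneg_right h4 (abs_nonneg _)).trans g1
  have e4 : (2 : ℝ) ^ (v * (W.F k).n) * W.dl v k = 1 := by
    unfold Sp.dl
    rw [← Real.rpow_add (by norm_num : (0 : ℝ) < 2), add_neg_cancel, Real.rpow_zero]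
  have e5 := mul_le_mul_of_nonneg_right e3 (W.dl_pos v k).le
  have e6 : (2 : ℝ) ^ (v * (W.F k).n) * |x - x'| * W.dl v k = |x - x'| := by
    calc (2 : ℝ) ^ (v * (W.F k).n) * |x - x'| * W.dl v k = ((2 : ℝ) ^ (v * (W.F k).n) * W.dl v k) * |x - x'| := by ring
      _ = |x - x'| := by rw [e4, one_mul]
  rw [e6] at e5
  exact e5

end

end Pool.Agent.Helper32.PLK
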