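import Pool.Agent.Helper32.PLK.Core
import Pool.Agent.Helper19.PLK.Pv
import Pool.Agent.Helper19.PLK.PvR

/-! PLANKS (`PLK1`): assembly. -/

set_option autoImplicit false

namespace Pool.Agent.Helper32.PLK

open Finset Filter Topology Matrix Pool.Agent.Helper69.RK Pool.Agent.Helper31.EC
open Pool.Agent.Helper31.EC.Sp Pool.Agent.Helper31.EC.QS
open Pool.Agent.Helper19.PLK (Rows mn mn_UB sum_mu_le sum_mu_const exists_PV rowsPV vol_rowsPV)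
open Pool.Agent.Helper62.PLK (vec1_dg vec2_dg)

noncomputable section

theorem cor_vec {S : Sp} {m : ℕ} (y : Fin m → TR S) (i : Fin m) : TR.cor (TR.vec y) i = y i := rfl

/-- the system of the lines of the plank -/
def sys1 {S : Sp} (t cR XR cz Xz : TR S)
    (ht : h (TR.dg t 1) (TR.dg cR 1 ⊔ TR.dg XR 1 ⊔ TR.dg cz 1 ⊔ TR.dg Xz 1) = 1) : Sys S 2 where
  a := TR.vec ![cR, cz]
  x := TR.vec ![XR, Xz]
  t := TR.vec (fun _ : Fin 1 => t)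
  ht := by
    rw [vec1_dg, vec2_dg, vec2_dg, sup_sup_sup_comm, ← sup_assoc (TR.dg cR 1 ⊔ TR.dg XR 1)]
    exact ht

variable {S : Sp} (t cR XR cz Xz : TR S)
  (ht : h (TR.dg t 1) (TR.dg cR 1 ⊔ TR.dg XR 1 ⊔ TR.dg cz 1 ⊔ TR.dg Xz 1) = 1)

theorem sys1_xi : (sys1 t cR XR cz Xz ht).xi 1 = TR.dg cR 1 ⊔ TR.dg XR 1 ⊔ TR.dg cz 1 ⊔ TR.dg Xz 1 := by
  show (TR.vec ![cR, cz]).dg 1 ⊔ (TR.vec ![XR, Xz]).dg 1 = _
  rw [vec2_dg, vec2_dg, sup_sup_sup_comm, ← sup_assoc (TR.dg cR 1 ⊔ TR.dg XR 1)]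

theorem sys1_P : (sys1 t cR XR cz Xz ht).P.dg 1 ≤ TR.dg (cR + t * XR) 1 ⊔ TR.dg (cz + t * Xz) 1 := by
  rw [TR.vv_dg_le_iff]
  intro i
  have h0 : TR.cor (sys1 t cR XR cz Xz ht).P 0 = cR + t * XR := rfl
  have h1 : TR.cor (sys1 t cR XR cz Xz ht).P 1 = cz + t * Xz := rfl
  fin_cases i
  · show TR.dg (TR.cor (sys1 t cR XR cz Xz ht).P 0) 1 ≤ _
    rw [h0]
    exact le_sup_left
  · show TR.dg (TR.cor (sys1 t cR XR cz Xz ht).P 1) 1 ≤ _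
    rw [h1]
    exact le_sup_right

/-- PLANKS -/
theorem plk1 (hst : Pool.Agent.Helper59.EV.ST 1 2) : Pool.Agent.Helper54.NB.PLK1 := by
  intro S t' cR' XR' cz' Xz' ρ e e' hρ he hee he1 ht hu hpos
  obtain ⟨t, rfl⟩ := QS.mk_surj t'
  obtain ⟨cR, rfl⟩ := QS.mk_surj cR'
  obtain ⟨XR, rfl⟩ := QS.mk_surj XR'
  obtain ⟨cz, rfl⟩ := QS.mk_surj cz'
  obtain ⟨Xz, rfl⟩ := QS.mk_surj Xz'
  rw [dg_mk _ le_rfl, dg_mk _ le_rfl, dg_mk _ le_rfl, dg_mk _ le_rfl, dg_mk _ le_rfl] at ht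
  have e0 : (QS.mk cR + QS.mk t * QS.mk XR : QS S) = QS.mk (cR + t * XR) := by rw [map_add, map_mul]
  have e1 : (QS.mk cz + QS.mk t * QS.mk Xz : QS S) = QS.mk (cz + t * Xz) := by rw [map_add, map_mul]
  rw [e0, e1] at hu hpos ⊢
  obtain ⟨W, p, V, K, C, hPV⟩ := exists_PV hst (sys1 t cR XR cz Xz ht)
  have hT : (sys1 t cR XR cz Xz ht).T = TR.dg t 1 := rfl
  have hlP : io V ≤ TR.dg (p.tr cR + p.tr t * p.tr XR) 1 ⊔ TR.dg (p.tr cz + p.tr t * p.tr Xz) 1 ⊔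
      TR.dg (p.tr t) 1 := by
    refine hPV.leP.trans ?_
    rw [← map_mul, ← map_mul, ← map_add, ← map_add, p.tr_dg, p.tr_dg, p.tr_dg, ← p.map_sup, ← p.map_sup]
    apply p.map_mono
    rw [hT]
    exact sup_le_sup_right (sys1_P t cR XR cz Xz ht) _
  have eR : p.tr cR + p.tr t * p.tr XR = p.tr (cR + t * XR) := by rw [map_add, map_mul]
  have ez : p.tr cz + p.tr t * p.tr Xz = p.tr (cz + t * Xz) := by rw [map_add, map_mul]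
  obtain ⟨E, hE, α, β0, β1, h1, h2, h3, h4, h5, h6⟩ := core (rowsPV hPV) (vol_rowsPV hPV) hlP hρ he hee he1
    (by
      intro E hE v hv0 hv1
      have k1 := hu W p E hE v hv0 hv1
      rw [dg_mk _ le_rfl, dg_mk _ hv1, dg_mk _ le_rfl, dg_mk _ le_rfl, p.map_sup, p.map_sup, ← p.tr_dg, ← p.tr_dg,
        ← p.tr_dg, ← p.tr_dg] at k1
      show h (restL E hE (TR.dg (p.tr cz + p.tr t * p.tr Xz) 1)) (restL E hE (TR.dg (p.tr cz + p.tr t * p.tr Xz) v ⊔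
        TR.dg (p.tr cR + p.tr t * p.tr XR) 1 ⊔ TR.dg (p.tr t) 1)) ≤ (1 - ρ) * (1 - v)
      rw [eR, ez]
      exact k1)
    (by
      have he1' : e ≤ 1 := by linarith
      rw [dg_mk _ he1', dg_mk _ he1', dg_mk _ le_rfl, dg_mk _ le_rfl, dg_mk _ le_rfl] at hpos
      show 0 < h (TR.dg (p.tr XR) e ⊔ TR.dg (p.tr Xz) e) (TR.dg (p.tr cR + p.tr t * p.tr XR) 1 ⊔
        TR.dg (p.tr cz + p.tr t * p.tr Xz) 1 ⊔ TR.dg (p.tr t) 1)
      rw [eR, ez, p.tr_dg, p.tr_dg, p.tr_dg, p.tr_dg, p.tr_dg, ← p.map_sup, ← p.map_sup, ← p.map_sup, p.h_map]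
      exact hpos)
  have h1' : QS.dg α 1 ≤ io V := h1
  have h2' : QS.dg β0 1 ≤ io V := h2
  have h3' : QS.dg β1 1 ≤ io V := h3
  have h4' : QS.mk (p.tr cz + p.tr t * p.tr Xz) = β0 + β1 * QS.mk (p.tr t) +
    α * QS.mk (p.tr cR + p.tr t * p.tr XR) := h4
  have h5' : 1 - e' ≤ h (restL E hE (TR.dg (p.tr cR + p.tr t * p.tr XR) 1))
    (restL E hE (io V) ⊔ restL E hE (TR.dg (p.tr cR + p.tr t * p.tr XR) e' ⊔ TR.dg (p.tr t) 1)) := h5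
  have h6' : ∀ (X : Sp) (q : Pj X (W.rest E)) (τ : QS X),
        h (QS.dg (q.qs (QS.rest E hE (QS.mk (p.tr cR))) + τ * q.qs (QS.rest E hE (QS.mk (p.tr XR)))) e')
          (q.map (restL E hE (io V)) ⊔ QS.dg τ 1) ≤
        h (restL E hE (TR.dg (p.tr cR + p.tr t * p.tr XR) e')) (restL E hE (io V) ⊔ restL E hE (TR.dg (p.tr t) 1)) := h6
  rw [eR, ez] at h4'
  rw [eR] at h5' h6'
  refine ⟨W, p, E, hE, QS.rest E hE α, QS.rest E hE β0, QS.rest E hE β1, restL E hE (io V), ?_, ?_, ?_, ?_, ?_, ?_,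
    ?_, ?_⟩
  · apply restL_mono
    rw [dg_mk _ le_rfl, dg_mk _ le_rfl, dg_mk _ le_rfl, dg_mk _ le_rfl, ← sys1_xi t cR XR cz Xz ht]
    exact hPV.leL
  · apply restL_mono
    rw [dg_mk _ le_rfl, dg_mk _ le_rfl, dg_mk _ le_rfl, p.map_sup, p.map_sup, ← p.tr_dg, ← p.tr_dg, ← p.tr_dg, ← eR,
      ← ez]
    exact hlP
  · rw [QS.rest_dg E hE]
    exact restL_mono E hE h1'
  · rw [QS.rest_dg E hE]
    exact restL_mono E hE h2'
  · rw [QS.rest_dg E hE]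
    exact restL_mono E hE h3'
  · rw [p.qs_mk, p.qs_mk, p.qs_mk, h4', map_add, map_add, map_mul, map_mul]
  · rw [dg_mk _ le_rfl, dg_mk _ he1.le, dg_mk _ le_rfl, p.map_sup, ← p.tr_dg, ← p.tr_dg, ← p.tr_dg]
    exact h5'
  · intro D q τ
    rw [dg_mk _ he1.le, dg_mk _ le_rfl, ← p.tr_dg, ← p.tr_dg, p.qs_mk, p.qs_mk]
    exact h6' D q τ

end

end Pool.Agent.Helper32.PLK
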