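import Pool.Agent.Helper19.PLK.Ful
import Pool.Agent.Helper19.SP.Absorb

/-! PLANKS (`PLK1`): literal rows of a form of degree one; `z` is saturated over the form. -/

set_option autoImplicit false

namespace Pool.Agent.Helper32.PLK

open Finset Filter Topology Pool.Agent.Helper69.RK Pool.Agent.Helper31.EC
open Pool.Agent.Helper31.EC.Sp Pool.Agent.Helper31.EC.QS
open Pool.Agent.Helper19.PLK (Rows mn mn_UB sum_mu_le sum_mu_const)

noncomputable section

variable {W : Sp} {t cR XR cz Xz : TR W} {al : ℕ → Type}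

/-- the condition `(V, R, t)` -/
def cnd (V : ∀ k, (W.F k).Ω → al k) (R t : TR W) : ∀ k, (W.F k).Ω → al k × (Fin 2 → ℤ) :=
  fun k w => (V k w, (TR.vec ![R, t]).cellv 1 k w)

theorem cnd_bdd {V : ∀ k, (W.F k).Ω → al k} (hV : Bdd V) (R t : TR W) : Bdd (cnd V R t) :=
  hV.pair ((TR.vec ![R, t]).bdd 1)

theorem io_cnd {V : ∀ k, (W.F k).Ω → al k} (hV : Bdd V) (R t : TR W) :
    io (cnd V R t) = io V ⊔ TR.dg R 1 ⊔ TR.dg t 1 := by
  rw [sup_assoc, ← Pool.Agent.Helper62.PLK.vec2_dg]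
  exact io_pair hV ((TR.vec ![R, t]).bdd 1)

/-- difference of two points of a row -/
theorem row_diff {s b0 b1 a K δ z z' R R' t t' : ℝ} (hs : 0 < s) (h2 : s * |a| * δ ≤ K)
    (h3 : s * |b1| * δ ≤ K) (h4 : |s * (z - b0 - b1 * t - a * R)| ≤ K)
    (h4' : |s * (z' - b0 - b1 * t' - a * R')| ≤ K) (hR : |R - R'| ≤ δ) (ht : |t - t'| ≤ δ) :
    s * |z - z'| ≤ 4 * K := by
  have e1 : s * |z - z'| = |s * (z - z')| := by rw [abs_mul, abs_of_pos hs]
  have e2 : s * (z - z') = s * (z - b0 - b1 * t - a * R) - s * (z' - b0 - b1 * t' - a * R') +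
      s * b1 * (t - t') + s * a * (R - R') := by ring
  have e3 : |s * b1 * (t - t')| ≤ K := by
    rw [abs_mul, abs_mul, abs_of_pos hs]
    exact (mul_le_mul_of_nonneg_left ht (by positivity)).trans h3
  have e4 : |s * a * (R - R')| ≤ K := by
    rw [abs_mul, abs_mul, abs_of_pos hs]
    exact (mul_le_mul_of_nonneg_left hR (by positivity)).trans h2
  rw [e1, e2]
  rw [abs_le] at *
  constructor <;> linarith [h4.1, h4.2, h4'.1, h4'.2, e3.1, e3.2, e4.1, e4.2]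

theorem pr_pos_ev {S : Sp} {E : ∀ k, (S.F k).Ω → Prop} (hE : 0 < ul (S.pr E)) : ∀ᶠ k in UF, (S.F k).pb (E k) ≠ 0 := by
  filter_upwards [eventually_gt_of_lt_ul (UB_pr E) hE] with k hk using hk.ne'

/-- an event of positive mass has points -/
theorem pr_pos_ex {S : Sp} {E : ∀ k, (S.F k).Ω → Prop} (hE : 0 < ul (S.pr E)) :
    ∀ᶠ k in UF, ∃ w, (S.F k).μ w ≠ 0 ∧ E k w := by
  filter_upwards [pr_pos_ev hE] with k hk
  by_contra hc
  push Not at hc
  apply hk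
  unfold FSp.pb mass
  refine Finset.sum_eq_zero fun w _ => ?_
  by_cases hw : (S.F k).μ w = 0
  · by_cases h2 : E k w
    · rw [res_pos _ _ _ h2, hw]
    · exact res_neg _ _ _ h2
  · exact res_neg _ _ _ (hc w hw)

/-- power of the level -/
theorem le_pow_lv {s n : ℝ} (hn : 0 < n) (h : 1 ≤ s) {v : ℝ} (hv : v ≤ Real.logb 2 s / n) :
    2 ^ (v * n) ≤ s := by
  rw [le_div_iff₀ hn] at hv
  calc (2 : ℝ) ^ (v * n) ≤ 2 ^ (Real.logb 2 s) :=
        Real.rpow_le_rpow_of_exponent_le (by norm_num) hv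
    _ = _ := Real.rpow_logb (by norm_num) (by norm_num) (by linarith)

/-- mean of a function which is at most a constant on the event -/
theorem mn_le {E : ∀ k, (W.F k).Ω → Prop} (hE : 0 < ul (W.pr E)) {f : ∀ k, (W.F k).Ω → ℝ} {C c : ℝ}
    (hf : ∀ᶠ k in UF, ∀ ω, (W.F k).μ ω ≠ 0 → 0 ≤ f k ω ∧ f k ω ≤ C)
    (h : ∀ᶠ k in UF, ∀ w, (W.F k).μ w ≠ 0 → E k w → f k w ≤ c) : mn (W.rest E) f ≤ c := by
  unfold mn
  apply ul_le_const
  · apply mn_UB (T := W.rest E) (C := C)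
    filter_upwards [hf] with k hk ω hω using hk ω ((W.F k).rest_supp (E k) ω hω).1
  · filter_upwards [h, pr_pos_ev hE] with k hk h0
    have h1 := sum_mu_le (F := (W.rest E).F k) (f k) (fun _ => c) fun w hw => by
      obtain ⟨w1, w2⟩ := (W.F k).rest_supp (E k) w hw
      exact hk w w1 (w2 h0)
    rwa [sum_mu_const] at h1

variable (D : Rows W t cR XR cz Xz al)

/-- on an event on which `sZ ≥ 2 ^ (v n)` the digits of `z` of level `v` are known over `(V, R, t)` -/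
theorem z_known (E : ∀ k, (W.F k).Ω → Prop)
    (hE : 0 < ul (W.pr E)) (v : ℝ) (hv : ∀ᶠ k in UF, ∀ w, (W.F k).μ w ≠ 0 → E k w →
      2 ^ (v * (W.F k).n) ≤ D.sz k (D.V k w)) :
    restL E hE (TR.dg (cz + t * Xz) v) ≤ restL E hE (io D.V ⊔ TR.dg (cR + t * XR) 1 ⊔ TR.dg t 1) := by
  rw [← io_cnd D.hV, restL_io E hE (cnd_bdd D.hV _ _), ← TR.rest_dg E hE]
  have hB : Bdd (S := W.rest E) (cnd (W := W) D.V (cR + t * XR) t) := rest_VB E (cnd_bdd D.hV (cR + t * XR) t)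
  have hK4 : (W.rest E).Sub (fun k => 4 * D.K k) := (W.Sub_const (by norm_num)).mul D.hK
  refine VV.dg_le_io (S := W.rest E) (TR.vec (fun _ : Fin 1 => TR.rest E (cz + t * Xz))) v hB _
    (Sp.Typ.rest E hE D.rowz) _ hK4 ?_
  filter_upwards [hv, D.big, D.hK.1, pr_pos_ev hE] with k h1 h2 h3 h0 w w' hw hw' hE1 hE2 hZ hX i
  obtain ⟨w1, w2⟩ := (W.F k).rest_supp (E k) w hw
  obtain ⟨_, ⟨a3, a2⟩, a4⟩ := hE1
  obtain ⟨_, _, a4'⟩ := hE2
  have hX1 : D.V k w = D.V k w' := congrArg Prod.fst hX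
  have hX2 : (TR.vec ![cR + t * XR, t]).cellv 1 k w = (TR.vec ![cR + t * XR, t]).cellv 1 k w' := congrArg Prod.snd hX
  have hc := (TR.vec ![cR + t * XR, t]).cellv_close 1 k _ _ hX2
  have hR : |(TR.ev cR k w + TR.ev t k w * TR.ev XR k w) - (TR.ev cR k w' + TR.ev t k w' * TR.ev XR k w')| ≤
    W.dl 1 k := hc 0
  have ht : |TR.ev t k w - TR.ev t k w'| ≤ W.dl 1 k := hc 1
  rw [← hX1] at a4'
  have hs1 := (h2 w w1).1.2
  have hs : 0 < D.sz k (D.V k w) := by linarith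
  have e1 := row_diff hs a2 a3 a4 a4' hR ht
  have e2 := h1 w w1 (w2 h0)
  show |(TR.ev cz k w + TR.ev t k w * TR.ev Xz k w) - (TR.ev cz k w' + TR.ev t k w' * TR.ev Xz k w')| ≤
    4 * D.K k * W.dl v k
  set d := |(TR.ev cz k w + TR.ev t k w * TR.ev Xz k w) - (TR.ev cz k w' + TR.ev t k w' * TR.ev Xz k w')| with hd
  have e3 : (2 : ℝ) ^ (v * (W.F k).n) * d ≤ 4 * D.K k := (mul_le_mul_of_nonneg_right e2 (abs_nonneg _)).trans e1
  have e4 : (2 : ℝ) ^ (v * (W.F k).n) * W.dl v k = 1 := by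
    unfold Sp.dl
    rw [← Real.rpow_add (by norm_num : (0 : ℝ) < 2), add_neg_cancel, Real.rpow_zero]
  have e5 := mul_le_mul_of_nonneg_right e3 (W.dl_pos v k).le
  have e6 : (2 : ℝ) ^ (v * (W.F k).n) * d * W.dl v k = d := by
    calc (2 : ℝ) ^ (v * (W.F k).n) * d * W.dl v k = ((2 : ℝ) ^ (v * (W.F k).n) * W.dl v k) * d := by ring
      _ = d := by rw [e4, one_mul]
  rw [e6] at e5
  exact e5

/-- `z` IS SATURATED over the form, all levels below one -/
theorem z_sat (hv : D.Vol) {ρ : ℝ} (hρ : 0 < ρ)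
    (hu : ∀ (E : ∀ k, (W.F k).Ω → Prop) (hE : 0 < ul (W.pr E)) (v : ℝ), 0 ≤ v → v ≤ 1 →
      h (restL E hE (TR.dg (cz + t * Xz) 1)) (restL E hE (TR.dg (cz + t * Xz) v ⊔ TR.dg (cR + t * XR) 1 ⊔
        TR.dg t 1)) ≤ (1 - ρ) * (1 - v)) (ε : ℝ) (hε : 0 < ε) : Typ (fun k w => 1 - ε ≤ D.lz k w) := by
  by_cases hε1 : 1 < ε
  · refine Typ_true.mono ?_
    filter_upwards [D.lz_bd] with k hk w hw _
    have := (hk w hw).1
    linarith
  push Not at hε1
  by_contra hT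
  set E0 : ∀ k, (W.F k).Ω → Prop := fun k w => ¬ (1 - ε ≤ D.lz k w) with hE0
  have hp : 0 < ul (W.pr E0) := by
    by_contra hc
    apply hT
    refine (Sp.typ_not_of_pr hc).mono (Eventually.of_forall fun k w _ h => ?_)
    exact not_not.mp h
  obtain ⟨N, hN⟩ := exists_nat_gt (2 / (ρ * ε))
  have hρε : 0 < ρ * ε := mul_pos hρ hε
  have hN0 : (0 : ℝ) < N := lt_trans (by positivity) hN
  have hNη : (1 : ℝ) / N < ρ * ε := by
    rw [div_lt_iff₀ hN0]
    rw [div_lt_iff₀ hρε] at hN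
    linarith
  obtain ⟨i, hi, hF⟩ := Sp.exists_pr_pos hp N (fun i k w => E0 k w ∧ (i : ℝ) / N ≤ D.lz k w ∧
    D.lz k w ≤ (i + 1 : ℝ) / N) (by
    filter_upwards [D.lz_bd] with k hk w hw hEw
    have h1 := (hk w hw).1
    have h2 : D.lz k w < 1 := by
      have : ¬ (1 - ε ≤ D.lz k w) := hEw
      push Not at this
      linarith
    refine ⟨⌊D.lz k w * N⌋₊, ?_, hEw, ?_, ?_⟩
    · apply Nat.floor_le_of_le
      nlinarith
    · rw [div_le_iff₀ hN0]
      exact Nat.floor_le (by positivity)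
    · rw [le_div_iff₀ hN0]
      exact (Nat.lt_floor_add_one _).le)
  set F : ∀ k, (W.F k).Ω → Prop := fun k w => E0 k w ∧ (i : ℝ) / N ≤ D.lz k w ∧ D.lz k w ≤ (i + 1 : ℝ) / N with hFd
  set v : ℝ := (i : ℝ) / N with hvd
  have hv0 : 0 ≤ v := by positivity
  have hvN : (i + 1 : ℝ) / N = v + 1 / N := by rw [hvd]; ring
  -- the event is not empty, so `v < 1 - ε`
  have hv1 : v < 1 - ε := by
    obtain ⟨k, w, -, hw⟩ := (pr_pos_ex hF).exists
    have h3 : ¬ (1 - ε ≤ D.lz k w) := hw.1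
    push Not at h3
    exact lt_of_le_of_lt hw.2.1 h3
  have k1 : mn (W.rest F) D.lz ≤ v + 1 / N := mn_le hF D.lz_bd
    (Eventually.of_forall fun k w _ hw => by
      have := hw.2.2
      rwa [hvN] at this)
  have k2 := D.ful_z_rest hv F hF
  have k3 := hu F hF v hv0 (by linarith)
  have k4 := z_known D F hF v (by
    filter_upwards [D.big] with k hk w hw hFw
    exact le_pow_lv (W.F k).pos (hk w hw).1.2 hFw.2.1)
  have k5 : h (restL F hF (TR.dg (cz + t * Xz) 1)) (restL F hF (io D.V ⊔ TR.dg t 1 ⊔ TR.dg (cR + t * XR) 1)) ≤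
      h (restL F hF (TR.dg (cz + t * Xz) 1)) (restL F hF (TR.dg (cz + t * Xz) v ⊔ TR.dg (cR + t * XR) 1 ⊔
        TR.dg t 1)) := by
    apply h_anti
    rw [sup_right_comm (io D.V)]
    rw [restL_sup, restL_sup]
    refine sup_le (sup_le k4 ?_) ?_
    · exact restL_mono F hF (le_sup_right.trans le_sup_left)
    · exact restL_mono F hF le_sup_right
  have k6 : ρ * ε < ρ * (1 - v) := mul_lt_mul_of_pos_left (by linarith) hρ
  nlinarith

end

end Pool.Agent.Helper32.PLK
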